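import Pool.Agent.W900.PE.Fin

/-!
# How many strings of a random oracle have to be changed to make `NP` small in `E₂`?

Relative to almost every oracle `A` the class `NP^A` does not have measure zero in `E₂^A`. We show
that this is fragile: for every function `g` which tends to infinity, however slowly, and every
oracle `O` there is an oracle `A` which is obtained from `O` by changing (for large `n`) at most
`g n` of the strings of length at most `n`, such that not only `NP^A` and `PSPACE^A` but even the
exponential space class `ESPACE^A` (so also `E^A` and `NE^A`) has `p₂^A`-measure zero, with null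
covers computable in time polynomial in `n + 2 ^ ((log n) ^ 2)` relative to `A`. For almost every
oracle `O` the oracle `A` can be chosen such that, in addition, the polynomial hierarchy is infinite
relative to `A` even against polynomial advice, and there are exponentially hard one-way functions.
If `g` does not tend to infinity, then for almost every oracle `O`, all `A` obtained in this way and
all `k`, `j`, the class `Σ_k^A` has `p₂`-measure zero relative to the join of `A` and some set in
`Σ_j^A` if and only if `k ≤ j`.
-/

set_option autoImplicit false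

namespace Pool.Agent.Results.MP_a0edbc_lc.ChangedStrings

open Pool.Agent.NPC Pool.Agent.H620R2.Gauge Filter MeasureTheory
open Pool.Agent.W911.KM (NullQP join)
open Pool.Agent.W911.AL (IsSigma)
open Pool.Agent.W900.CH (Close)
open Pool.Agent.H622R2.Exp (InSpace Lin)
open Pool.Agent.H591R3.PHG (IsSig IsSigPoly)
open Pool.Agent.H628R3.RO (randomOracle)

theorem result :
    (∀ (g : ℕ → ℝ), Tendsto g atTop atTop → ∀ O : Oracle, ∃ A : Oracle, Close g O A ∧
      NullQP A 2 {L | IsPSPACE A L ∨ InSpace Lin A L}) ∧
    ∀ᵐ O ∂randomOracle,
      (∀ g : ℕ → ℝ, ¬ Tendsto g atTop atTop → ∀ A : Oracle, Close g O A → ∀ k j : ℕ,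
        (∃ (B : Set (List Bool)) (c : ℕ), IsSigma A (fun _ => j) B ∧
          NullQP (join A B) c {L | IsSigma A (fun _ => k) L}) ↔ k ≤ j) ∧
      ∀ g : ℕ → ℝ, Tendsto g atTop atTop → ∃ A : Oracle, Close g O A ∧
        NullQP A 2 {L | IsPSPACE A L ∨ InSpace Lin A L} ∧
        (∀ k, ∃ L, IsSig A (k + 1) L ∧ ¬ IsSigPoly A k L) ∧
        ∃ f, Pool.Agent.W900.OC.Hard A f :=
  ⟨fun _ hg O => Pool.Agent.W900.PE.exists_close_null hg O, Pool.Agent.W900.PE.ae_main⟩

end Pool.Agent.Results.MP_a0edbc_lc.ChangedStrings
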