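import Pool.Agent.W911.KM.Meas

/-!
# Relative to a random oracle no level of the polynomial hierarchy is small in `E`

`IsSigma A (fun _ => κ) B`: the language `B` is in the level `Σ_κ` of the polynomial hierarchy
relative to the oracle `A`, i.e. it is decided in polynomial time relative to `A` with `κ`
alternating quantifiers, the first one existential (`κ = 0` is `P`, `κ = 1` is `NP`).

`IsE A L`: the language `L` is decided in time `2 ^ O(n)` relative to `A`.

`NullP O X`: the class `X` of languages has `p`-measure zero relative to the oracle `O`, i.e. it
has a null cover which is computable (through dyadic approximations) in polynomial time relative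
to `O`.

Relative to almost every oracle `A`, the following holds for all `κ` and all sets `B` in `Σ_κ`: the
class `Σ_{κ+1} ∩ E` does not have a null cover which is computable in polynomial time relative to
the join of `A` and `B`. For every polynomial-time algorithm there is another language in
`Σ_{κ+1} ∩ E` which its null cover does not cover; no single language in `E` would do, because
every language in `E` is covered by some null cover computable in polynomial time.
-/

set_option autoImplicit false

namespace Pool.Agent.Results.MP_a0edbc_lc.LevelsInE

open MeasureTheory Pool.Agent.W911.AL Pool.Agent.W911.KM
open Pool.Agent.H620R2.Gauge (Oracle)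

theorem result : ∀ᵐ A ∂fair, ∀ (κ : ℕ) (B : Set (List Bool)), IsSigma A (fun _ => κ) B →
    ¬ NullP (join A B) {L | IsSigma A (fun _ => κ + 1) L ∧ IsE A L} :=
  km_e

end Pool.Agent.Results.MP_a0edbc_lc.LevelsInE
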