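import Pool.Agent.W911.KM.Meas

/-!
# Relative to a random oracle no level of the polynomial hierarchy is small in `E₂`

`IsSigma A (fun _ => κ) B`: the language `B` is in the level `Σ_κ` of the polynomial hierarchy
relative to the oracle `A`, i.e. it is decided in polynomial time relative to `A` with `κ`
alternating quantifiers, the first one existential (`κ = 0` is `P`, `κ = 1` is `NP`).

`NullQP O c X`: the class `X` of languages has a null cover which is computable (through dyadic
approximations) in time polynomial in `n + 2 ^ ((log n) ^ c)` relative to the oracle `O`; here `n`
is the length of the arguments. The union over all `c` is the `p₂`-measure relative to `O`.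

Relative to almost every oracle `A`, the following holds for all `κ` and `c`. There is a language
`L` in `Σ_{κ+1}` such that no class which contains `L` has such a null cover, not even relative to
the join of `A` and any set `B` in `Σ_κ`. In particular `Σ_{κ+1}`, which is a part of `E₂` relative
to `A`, does not have `p₂`-measure zero, even for the null covers which are computable with
questions to sets in `Σ_κ`.
-/

set_option autoImplicit false

namespace Pool.Agent.Results.MP_a0edbc_lc.LevelsInExpTime

open MeasureTheory Pool.Agent.W911.AL Pool.Agent.W911.KM
open Pool.Agent.H620R2.Gauge (Oracle)

theorem result : ∀ᵐ A ∂fair, ∀ κ c : ℕ, ∃ L : Set (List Bool), IsSigma A (fun _ => κ + 1) L ∧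
    ∀ B : Set (List Bool), IsSigma A (fun _ => κ) B →
      ∀ X : Set (Set (List Bool)), L ∈ X → ¬ NullQP (join A B) c X :=
  km_ae

end Pool.Agent.Results.MP_a0edbc_lc.LevelsInExpTime
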